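import Pool.Agent.Run7.h247.SG.Polar

/-!
# Short periodic geodesics if the cut locus of some point is a single point

`X` is a compact metric space in which any two points are joined by a minimal geodesic, minimal
geodesics between points at distance less than `r` are unique, and minimal geodesics do not branch
(every closed Riemannian manifold). No symmetry of any kind is assumed.

Let `p ≠ q` be points such that every point `x ≠ q` is an interior point of a minimal geodesic which
starts at `p` (`x = p` is allowed to be its start), that is, the cut locus of `p` is contained in
`{q}`. (For closed Riemannian manifolds of dimension `n` this means that `X` is a sphere with a metric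
`dr ^ 2 + g_r`, `0 ≤ r ≤ d(p, q)`, where `g_r` is an arbitrary family of metrics on the sphere of
dimension `n - 1` which closes up smoothly at both ends.) If `X` is not contractible (closed manifolds
of positive dimension never are), there is a periodic geodesic of length at most `2 d(p, q)`, so of
length at most `2 diam X`, in all dimensions.

Proof. The loops which consist of a minimal geodesic from `p` to `q` and a fixed one from `q` to `p`
have the length `2 d(p, q)`. If there is no periodic geodesic of at most this length, the shortening
of curves contracts all of them, continuously and through loops of at most this length, to point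
loops; the base points may move. From this a contraction of `X` is constructed.
-/

set_option autoImplicit false

open Set

namespace Pool.Agent.Results.MP_3eff7f_gt.CutLocusOnePoint

open Pool.Agent.Y489.GE Pool.Agent.Run7.h247.SG

/-- Minimal geodesics do not branch: if `b ≠ a` is on minimal geodesics from `a` to `c` and from `a`
to `c'`, and `c` and `c'` have the same distance from `b`, then `c = c'`. -/
def NonBranching (X : Type) [MetricSpace X] : Prop :=
  ∀ a b c c' : X, a ≠ b → dist a b + dist b c = dist a c → dist a b + dist b c' = dist a c' →
    dist b c = dist b c' → c = c'

/-- The cut locus of `p` is contained in `{q}`: every `x ≠ q` is on a minimal geodesic from `p` to a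
point `y ≠ x`. -/
def CutLocusIn (X : Type) [MetricSpace X] (p q : X) : Prop :=
  ∀ x : X, x ≠ q → ∃ y : X, y ≠ x ∧ dist p x + dist x y = dist p y

theorem sum_of {X : Type} [MetricSpace X] [CompactSpace X] {p q : X} (h : CutLocusIn X p q)
    (x : X) : dist p x + dist x q = dist p q := by
  have hcl : IsClosed {y : X | dist p x + dist x y = dist p y} :=
    isClosed_eq (continuous_const.add (continuous_const.dist continuous_id))
      (continuous_const.dist continuous_id)
  obtain ⟨y, hy, hmax⟩ := hcl.isCompact.exists_isMaxOn ⟨x, by simp⟩
    (continuous_const.dist continuous_id : Continuous fun y : X => dist p y).continuousOn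
  have hy' : dist p x + dist x y = dist p y := hy
  by_cases hyq : y = q
  · rw [hyq] at hy'
    exact hy'
  · exfalso
    obtain ⟨y', hne, he⟩ := h y hyq
    have h1 : dist p x + dist x y' = dist p y' := by
      have h2 := dist_triangle x y y'
      have h3 := dist_triangle p x y'
      linarith
    have h4 : dist p y' ≤ dist p y := hmax h1
    have h5 : 0 < dist y y' := dist_pos.2 hne.symm
    linarith

theorem poles_of {X : Type} [MetricSpace X] [CompactSpace X] {p q : X} (hpq : p ≠ q)
    (hN : NonBranching X) (h : CutLocusIn X p q) : Poles X p q := by
  have hs := sum_of h
  refine ⟨hpq, hs, ?_, ?_⟩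
  · intro x z w hxq h1 h2 h3
    refine hN q x z w hxq.symm ?_ ?_ (by rw [dist_comm x z, dist_comm x w]; linarith)
    · have e1 := hs x
      have e2 := hs z
      rw [dist_comm q x, dist_comm q z, dist_comm x z]
      linarith
    · have e1 := hs x
      have e2 := hs w
      rw [dist_comm q x, dist_comm q w, dist_comm x w]
      linarith
  · intro x z w hxp h1 h2 h3
    refine hN p x z w hxp.symm ?_ ?_ h3
    · have e1 := hs x
      have e2 := hs z
      linarith
    · have e1 := hs x
      have e2 := hs w
      linarith

theorem result (X : Type) [MetricSpace X] [CompactSpace X] (p q : X) (r : ℝ) (hr : 0 < r)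
    (hX : GeodSpace X) (hU : UniqGeod X r) (hN : NonBranching X) (hpq : p ≠ q)
    (hC : CutLocusIn X p q) (hc : ¬ ContractibleSpace X) :
    ClosedGeod X (2 * dist p q) ∧ ClosedGeod X (2 * Metric.diam (univ : Set X)) := by
  have h1 := two_poles hr hX hU (poles_of hpq hN hC) hc
  refine ⟨h1, ?_⟩
  obtain ⟨γ, ℓ, h2, h3, h4⟩ := h1
  have h5 : dist p q ≤ Metric.diam (univ : Set X) :=
    Metric.dist_le_diam_of_mem isCompact_univ.isBounded (mem_univ p) (mem_univ q)
  exact ⟨γ, ℓ, h2, by linarith, h4⟩

end Pool.Agent.Results.MP_3eff7f_gt.CutLocusOnePoint
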