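import Pool.Agent.Run7.h247.SG.Fin

/-!
# Short periodic geodesics from cyclic and dihedral symmetries without common fixed point

`X` is a compact metric space in which any two points are joined by a minimal geodesic and (from 2.
on) minimal geodesics between points at distance less than `r` are unique (every closed Riemannian
manifold). `X ≃ᵢ X` is the group of isometries of `X`; `ClosedGeod X L`: there is a periodic
geodesic of length at most `L`.

1. Let `g` be an isometry without fixed points. There is a curve `f` with `f (t + δ) = g (f t)`,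
   `δ > 0`, which is minimal on every interval of length `δ`. If `g ^ k = 1`, there is a periodic
   geodesic of length at most `k d(x, g x)` for every point `x`; no power of `g` but `g` itself is
   assumed to be free of fixed points.
2. Let `σ`, `τ` be isometric involutions, `A`, `B` unions of components of their fixed point sets
   (closed, with closed complement in the fixed point set) without common point and
   `(σ τ) ^ m = 1`. There is a periodic geodesic of length at most `2 m d(a, b)` for all `a` in `A`,
   `b` in `B`.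
3. An isometric involution whose fixed point set is not connected gives a periodic geodesic of
   length at most `2 diam X`.
4. If a finite group `G`, cyclic or dihedral, acts on `X` by isometries without a point fixed by all
   of `G`, there is a periodic geodesic of length at most `|G| diam X`, in all dimensions.
5. For metrics on spheres: let `X` be homeomorphic to the unit sphere of `V`. If a finite group
   `G`, cyclic or dihedral, acts linearly on `V` without nonzero fixed vector and leaves the metric
   invariant, there is a periodic geodesic of length at most `|G| diam X`. If the half turn about a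
   line of `V` leaves the metric invariant, there is one of length at most `2 diam X`.
-/

set_option autoImplicit false

open Set

namespace Pool.Agent.Results.MP_3eff7f_gt.CyclicDihedralSymmetry

open Pool.Agent.Y489.GE Pool.Agent.Run7.h247.SG

/-- 1. isometries without fixed points -/
def WithoutFixedPoints : Prop :=
  ∀ (X : Type) [MetricSpace X] [CompactSpace X] [Nonempty X] (g : X ≃ᵢ X), GeodSpace X →
    (∀ x, g x ≠ x) →
    (∃ (δ : ℝ) (f : ℝ → X), 0 < δ ∧ (∀ t, f (t + δ) = g (f t)) ∧
      ∀ s t : ℝ, |s - t| ≤ δ → dist (f s) (f t) = |s - t|) ∧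
    ∀ k : ℕ, 1 ≤ k → g ^ k = 1 → ∀ x : X, ClosedGeod X (k * dist x (g x))

/-- 2. two isometric involutions -/
def TwoInvolutions : Prop :=
  ∀ (X : Type) [MetricSpace X] [CompactSpace X] (r : ℝ) (σ τ : X ≃ᵢ X) (A B : Set X) (m : ℕ),
    0 < r → GeodSpace X → UniqGeod X r → (∀ x, σ (σ x) = x) → (∀ x, τ (τ x) = x) →
    A ⊆ {x | σ x = x} → B ⊆ {x | τ x = x} → IsClosed A → IsClosed B →
    IsClosed ({x | σ x = x} \ A) → IsClosed ({x | τ x = x} \ B) → Disjoint A B →
    1 ≤ m → (σ * τ) ^ m = 1 → ∀ a ∈ A, ∀ b ∈ B, ClosedGeod X (2 * m * dist a b)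

/-- 3. one isometric involution -/
def DisconnectedFixedSet : Prop :=
  ∀ (X : Type) [MetricSpace X] [CompactSpace X] (r : ℝ) (σ : X ≃ᵢ X), 0 < r → GeodSpace X →
    UniqGeod X r → (∀ x, σ (σ x) = x) → ¬ IsPreconnected {x | σ x = x} →
    ClosedGeod X (2 * Metric.diam (univ : Set X))

/-- the group is cyclic or dihedral -/
def CycDih (G : Type) [Group G] : Prop :=
  IsCyclic G ∨ ∃ n : ℕ, Nonempty (G ≃* DihedralGroup n)

/-- 4. group actions without global fixed point -/
def GroupActions : Prop :=
  ∀ (X G : Type) [MetricSpace X] [CompactSpace X] [Nonempty X] [Group G] [Finite G]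
    [MulAction G X] [IsIsometricSMul G X] (r : ℝ), 0 < r → GeodSpace X → UniqGeod X r →
    CycDih G → (¬ ∃ x : X, ∀ g : G, g • x = x) →
    ClosedGeod X (Nat.card G * Metric.diam (univ : Set X))

/-- 5. metrics on the unit sphere of `V` invariant under a linear group -/
def LinearActions : Prop :=
  ∀ (V X G : Type) [NormedAddCommGroup V] [InnerProductSpace ℝ V] [MetricSpace X]
    [CompactSpace X] [Nonempty X] [Group G] [Finite G] [MulAction G X] [IsIsometricSMul G X]
    (r : ℝ) (h : X ≃ₜ Metric.sphere (0 : V) 1) (φ : G →* (V →ₗ[ℝ] V)), 0 < r → GeodSpace X →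
    UniqGeod X r → (∀ (g : G) (x : X), (h (g • x) : V) = φ g (h x : V)) →
    (∀ v : V, (∀ g : G, φ g v = v) → v = 0) → CycDih G →
    ClosedGeod X (Nat.card G * Metric.diam (univ : Set X))

/-- 5. metrics on the unit sphere of `V` invariant under the half turn about the line of `e` -/
def HalfTurns : Prop :=
  ∀ (V X : Type) [NormedAddCommGroup V] [InnerProductSpace ℝ V] [MetricSpace X] [CompactSpace X]
    (r : ℝ) (h : X ≃ₜ Metric.sphere (0 : V) 1) (e : V) (σ : X ≃ᵢ X), 0 < r → GeodSpace X →
    UniqGeod X r → ‖e‖ = 1 →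
    (∀ x, (h (σ x) : V) = (2 * inner ℝ (h x : V) e) • e - (h x : V)) →
    ClosedGeod X (2 * Metric.diam (univ : Set X))

theorem groups (X G : Type) [MetricSpace X] [CompactSpace X] [Nonempty X] [Group G] [Finite G]
    [MulAction G X] [IsIsometricSMul G X] (r : ℝ) (hr : 0 < r) (hX : GeodSpace X)
    (hU : UniqGeod X r) (hG : IsCyclic G ∨ ∃ n : ℕ, Nonempty (G ≃* DihedralGroup n))
    (hno : ¬ ∃ x : X, ∀ g : G, g • x = x) :
    ClosedGeod X (Nat.card G * Metric.diam (univ : Set X)) := by
  rcases hG with hG | ⟨n, ⟨e⟩⟩
  · exact cyclic hX hG hno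
  · have hn : 1 ≤ n := by
      rcases Nat.eq_zero_or_pos n with h | h
      · have h1 : Nat.card G = 2 * n := by
          rw [Nat.card_congr e.toEquiv, DihedralGroup.nat_card]
        have h2 : 0 < Nat.card G := Nat.card_pos
        omega
      · exact h
    exact dihedral hr hX hU n hn e hno

theorem halfturn (V : Type) [NormedAddCommGroup V] [InnerProductSpace ℝ V]
    (X : Type) [MetricSpace X] [CompactSpace X] (r : ℝ) (hr : 0 < r) (hX : GeodSpace X)
    (hU : UniqGeod X r) (h : X ≃ₜ Metric.sphere (0 : V) 1) (e : V) (he : ‖e‖ = 1) (σ : X ≃ᵢ X)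
    (hσ : ∀ x, (h (σ x) : V) = (2 * inner ℝ (h x : V) e) • e - (h x : V)) :
    ClosedGeod X (2 * Metric.diam (univ : Set X)) := by
  have hee : inner ℝ e e = (1 : ℝ) := by rw [real_inner_self_eq_norm_sq, he]; norm_num
  have hinv : ∀ x, σ (σ x) = x := by
    intro x
    apply h.injective
    apply Subtype.ext
    rw [hσ, hσ, inner_sub_left, inner_smul_left, hee]
    simp only [conj_trivial, mul_one]
    rw [show (2 * (2 * inner ℝ (h x : V) e - inner ℝ (h x : V) e)) = 2 * inner ℝ (h x : V) e by ring]
    abel
  have he1 : e ∈ Metric.sphere (0 : V) 1 := by simpa using he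
  have he2 : -e ∈ Metric.sphere (0 : V) 1 := by simpa using he
  set p : X := h.symm ⟨e, he1⟩ with hp
  set q : X := h.symm ⟨-e, he2⟩ with hq
  have hhp : (h p : V) = e := by rw [hp, h.apply_symm_apply]
  have hhq : (h q : V) = -e := by rw [hq, h.apply_symm_apply]
  have hfp : σ p = p := by
    apply h.injective
    apply Subtype.ext
    rw [hσ, hhp, hee, mul_one, two_smul]
    abel
  have hfq : σ q = q := by
    apply h.injective
    apply Subtype.ext
    rw [hσ, hhq, inner_neg_left, hee]
    module
  have hpq : p ≠ q := by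
    intro hh
    have h1 : e = -e := hhp.symm.trans ((congrArg (fun x => (h x : V)) hh).trans hhq)
    have h2 : e = 0 := by
      have h3 : (2 : ℝ) • e = 0 := by
        rw [two_smul]
        calc e + e = -e + e := by rw [← h1]
          _ = 0 := neg_add_cancel e
      exact (smul_eq_zero.1 h3).resolve_left two_ne_zero
    rw [h2, norm_zero] at he
    exact zero_ne_one he
  have hall : ∀ x, σ x = x → x = p ∨ x = q := by
    intro x hx
    have h1 := hσ x
    rw [hx] at h1
    have h2 : (h x : V) = (inner ℝ (h x : V) e) • e := by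
      have h3 : (2 : ℝ) • (h x : V) = (2 : ℝ) • ((inner ℝ (h x : V) e) • e) := by
        rw [two_smul ℝ (h x : V), smul_smul]
        nth_rewrite 1 [h1]
        abel
      exact smul_right_injective V (two_ne_zero) h3
    have h4 : ‖(h x : V)‖ = 1 := by simpa using (h x).2
    set a : ℝ := inner ℝ (h x : V) e with ha
    have h5 : |a| = 1 := by
      rw [h2, norm_smul, he, mul_one] at h4
      simpa using h4
    rcases (abs_eq zero_le_one).1 h5 with h6 | h6
    · left
      apply h.injective
      apply Subtype.ext
      rw [hhp, h2, h6, one_smul]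
    · right
      apply h.injective
      apply Subtype.ext
      rw [hhq, h2, h6, neg_smul, one_smul]
  have hd1 : ({x | σ x = x} \ {p} : Set X) = {q} := by
    ext x
    simp only [mem_sdiff, mem_ofPred_eq, mem_singleton_iff]
    constructor
    · rintro ⟨h1, h2⟩
      exact (hall x h1).resolve_left h2
    · intro hxq
      rw [hxq]
      exact ⟨hfq, hpq.symm⟩
  have hd2 : ({x | σ x = x} \ {q} : Set X) = {p} := by
    ext x
    simp only [mem_sdiff, mem_ofPred_eq, mem_singleton_iff]
    constructor
    · rintro ⟨h1, h2⟩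
      exact (hall x h1).resolve_right h2
    · intro hxp
      rw [hxp]
      exact ⟨hfp, hpq⟩
  have hsq : (σ * σ) ^ 1 = (1 : X ≃ᵢ X) := by
    ext x
    rw [pow_one]
    exact hinv x
  refine mono (pair hr hX hU σ σ hinv hinv {p} {q} ?_ ?_ isClosed_singleton isClosed_singleton
    (by rw [hd1]; exact isClosed_singleton) (by rw [hd2]; exact isClosed_singleton)
    (by simpa using hpq) 1 le_rfl hsq p q rfl rfl) ?_
  · intro x hx
    rw [mem_singleton_iff.1 hx]; exact hfp
  · intro x hx
    rw [mem_singleton_iff.1 hx]; exact hfq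
  · have h1 := dist_le_diam p q
    push_cast
    linarith

theorem result : WithoutFixedPoints ∧ TwoInvolutions ∧ DisconnectedFixedSet ∧ GroupActions ∧
    LinearActions ∧ HalfTurns := by
  refine ⟨?_, ?_, ?_, ?_, ?_, ?_⟩
  · intro X _ _ _ g hX hfix
    refine ⟨?_, fun k hk hg x => fpf_closed hX g hfix k hk hg x⟩
    obtain ⟨δ, x0, f, hδ, -, -, -, hf, hloc⟩ := fpf hX g hfix
    exact ⟨δ, f, hδ, hf, locmin hδ hf hloc⟩
  · intro X _ _ r σ τ A B m hr hX hU hσ hτ hA hB hAc hBc hA' hB' hAB hm hmm a ha b hb
    refine pair hr hX hU σ τ hσ hτ A B (fun x hx => hA hx) (fun x hx => hB hx) hAc hBc hA' hB'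
      hAB m hm ?_ a b ha hb
    have h1 : τ * σ = (σ * τ)⁻¹ := by
      rw [eq_comm, inv_eq_iff_mul_eq_one]
      ext x
      change σ (τ (τ (σ x))) = x
      rw [hτ, hσ]
    rw [h1, inv_pow, hmm, inv_one]
  · intro X _ _ r σ hr hX hU hσ hF
    exact disconnected hr hX hU σ hσ hF
  · intro X G _ _ _ _ _ _ _ r hr hX hU hG hno
    exact groups X G r hr hX hU hG hno
  · intro V X G _ _ _ _ _ _ _ _ _ r h φ hr hX hU hφ hfix hG
    refine groups X G r hr hX hU hG ?_
    rintro ⟨x, hx⟩
    have h1 : (h x : V) = 0 := hfix _ (fun g => by rw [← hφ, hx])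
    have h2 : ‖(h x : V)‖ = 1 := by simpa using (h x).2
    rw [h1, norm_zero] at h2
    exact zero_ne_one h2
  · intro V X _ _ _ _ r h e σ hr hX hU he hσ
    exact halfturn V X r hr hX hU h e he σ hσ

end Pool.Agent.Results.MP_3eff7f_gt.CyclicDihedralSymmetry
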